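import Pool.Agent.H15.LU.Stmt

/-!
# MP_812e67_ag: auxiliary definitions for the modules
-/

set_option autoImplicit false

namespace Pool.Agent.H15.LU

open Filter Topology Asymptotics Polynomial

/-! ### Part L: the Lipschitz invariant -/

/-- the family `y z² + x² z + a x² y³ + x y⁵ + c y⁷`, `p = (x, y, z)` -/
def fam (a c : ℂ) (p : Fin 3 → ℂ) : ℂ :=
  p 1 * p 2 ^ 2 + p 0 ^ 2 * p 2 + a * p 0 ^ 2 * p 1 ^ 3 + p 0 * p 1 ^ 5 + c * p 1 ^ 7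

def dx (a : ℂ) (p : Fin 3 → ℂ) : ℂ := 2 * p 0 * p 2 + 2 * a * p 0 * p 1 ^ 3 + p 1 ^ 5

def dy (a c : ℂ) (p : Fin 3 → ℂ) : ℂ :=
  p 2 ^ 2 + 3 * a * p 0 ^ 2 * p 1 ^ 2 + 5 * p 0 * p 1 ^ 4 + 7 * c * p 1 ^ 6

def dz (p : Fin 3 → ℂ) : ℂ := 2 * p 1 * p 2 + p 0 ^ 2

/-- the derivative of `fam a c` -/
noncomputable def grad (a c : ℂ) (p : Fin 3 → ℂ) : (Fin 3 → ℂ) →L[ℂ] ℂ :=
  dx a p • ContinuousLinearMap.proj (R := ℂ) (φ := fun _ : Fin 3 => ℂ) 0 +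
    dy a c p • ContinuousLinearMap.proj (R := ℂ) (φ := fun _ : Fin 3 => ℂ) 1 +
    dz p • ContinuousLinearMap.proj (R := ℂ) (φ := fun _ : Fin 3 => ℂ) 2

/-- `u` is the first coordinate of a critical point of the dehomogenised polynomial -/
def Root (a u : ℂ) : Prop := u ^ 3 = 2 * a * u + 1

/-- the critical value -/
noncomputable def val (a c u : ℂ) : ℂ := a / 2 * u ^ 2 + 3 / 4 * u + c

def Small (a c : ℂ) : Prop := ‖a‖ < 1 / 100 ∧ ‖c‖ < 1 / 100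

/-- `c` lies in the open sector `|arg c| < π / 4` -/
def Sector (c : ℂ) : Prop := |c.im| < c.re

/-- three different roots -/
def Roots3 (a u₁ u₂ u₃ : ℂ) : Prop :=
  Root a u₁ ∧ Root a u₂ ∧ Root a u₃ ∧ u₁ ≠ u₂ ∧ u₂ ≠ u₃ ∧ u₁ ≠ u₃

/-- the `k`-jet of `fam a c` (for `k ≥ 7`) -/
noncomputable def famJet (k : ℕ) (a c : ℂ) : Jet 3 k := fun m =>
  if m.1 = ![0, 1, 2] then 1 else if m.1 = ![2, 0, 1] then 1 else if m.1 = ![1, 5, 0] then 1
  else if m.1 = ![2, 3, 0] then a else if m.1 = ![0, 7, 0] then c else 0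

/-- the semialgebraic set of jets -/
def SJ (k : ℕ) : Set (Jet 3 k) := {j | ∃ a c, Small a c ∧ Sector c ∧ j = famJet k a c}

/-! ### Part N: nonadjacency to `J_{3,0}` -/

/-- exponents of the monomials of degree at most `9` in three variables -/
abbrev E9 : Type := {e : Fin 3 → ℕ // ∑ i, e i ≤ 9}

instance : Finite E9 :=
  Finite.of_injective (β := Fin 3 → Fin 10)
    (fun m i => ⟨m.1 i, Nat.lt_succ_of_le
      ((Finset.single_le_sum (fun _ _ => Nat.zero_le _) (Finset.mem_univ i)).trans m.2)⟩)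
    (fun m m' h => Subtype.ext (funext fun i => by simpa using congrFun h i))

noncomputable instance : Fintype E9 := Fintype.ofFinite _

/-- the exponent zero -/
def e0 : E9 := ⟨0, by simp⟩

/-- polynomial function of degree at most `9` with coefficients `T` -/
noncomputable def pf (T : E9 → ℂ) (p : Fin 3 → ℂ) : ℂ := ∑ e, T e * ∏ i, p i ^ e.1 i

open Classical in
/-- coefficients of `f₀` -/
noncomputable def T₀ (e : E9) : ℂ :=
  if e.1 = ![0, 1, 2] ∨ e.1 = ![2, 0, 1] ∨ e.1 = ![1, 5, 0] then 1 else 0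

/-! polynomials in three variables, for the normal form -/

/-- exponent as a finitely supported function -/
noncomputable def fs (e : Fin 3 → ℕ) : Fin 3 →₀ ℕ := Finsupp.equivFunOnFinite.symm e

/-- the polynomial with coefficients `T` -/
noncomputable def tp (T : E9 → ℂ) : MvPolynomial (Fin 3) ℂ :=
  ∑ e, MvPolynomial.monomial (fs e.1) (T e)

/-- exponents of the monomials of degree at most `7` in three variables -/
abbrev E7 : Type := {e : Fin 3 → ℕ // ∑ i, e i ≤ 7}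

instance : Finite E7 :=
  Finite.of_injective (β := Fin 3 → Fin 8)
    (fun m i => ⟨m.1 i, Nat.lt_succ_of_le
      ((Finset.single_le_sum (fun _ _ => Nat.zero_le _) (Finset.mem_univ i)).trans m.2)⟩)
    (fun m m' h => Subtype.ext (funext fun i => by simpa using congrFun h i))

noncomputable instance : Fintype E7 := Fintype.ofFinite _

/-- the exponent zero -/
def z7 : E7 := ⟨0, by simp⟩

/-- the polynomial `g` without constant term with coefficients `w e`, `e ≠ 0` -/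
noncomputable def gp (w : E7 → ℂ) : MvPolynomial (Fin 3) ℂ :=
  ∑ e : E7, if e = z7 then 0 else MvPolynomial.monomial (fs e.1) (w e)

/-- `T(x, y + g, z)` -/
noncomputable def sb (T : E9 → ℂ) (w : E7 → ℂ) : MvPolynomial (Fin 3) ℂ :=
  MvPolynomial.aeval ![MvPolynomial.X 0, MvPolynomial.X 1 + gp w, MvPolynomial.X 2] (tp T)

/-- the equations of the normal form: for all `e = (i, j, k)` of degree at most `7` the
coefficient of `x^i y^j z^(k+2)` in `T(x, y + g, z)` is that of `(y + w 0) z²` -/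
noncomputable def HH (T : E9 → ℂ) (w : E7 → ℂ) (e : E7) : ℂ :=
  (sb T w).coeff (fs e.1 + Finsupp.single 2 2) - (if e.1 = ![0, 1, 0] then 1 else 0) -
    if e = z7 then w z7 else 0

/-- Polynomials in two variables `x` (outer variable) and `y` (inner variable) are elements of
`ℂ[X][X]`; the value at `(x, y)` is `Q.evalEval y x`. This is `x²`. -/
noncomputable def Q₀ : ℂ[X][X] := X ^ 2

/-- `x y⁵` -/
noncomputable def R₀ : ℂ[X][X] := C (X ^ 5) * X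

/-- `x⁴ - 4 x y⁶` -/
noncomputable def W₀ : ℂ[X][X] := X ^ 4 - C (4 * X ^ 6) * X

/-- `(y + c) z² + z Q(x, y) + R(x, y)` -/
noncomputable def nf (c : ℂ) (Q R : ℂ[X][X]) (p : Fin 3 → ℂ) : ℂ :=
  (p 1 + c) * p 2 ^ 2 + p 2 * Q.evalEval (p 1) (p 0) + R.evalEval (p 1) (p 0)

/-- the discriminant `Q² - 4 (y + c) R` -/
noncomputable def ww (c : ℂ) (Q R : ℂ[X][X]) : ℂ[X][X] := Q ^ 2 - C (4 * (X + C c)) * R

/-- the member of the family `J_{3,0}` (no condition on `b`) -/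
def G30 (b c : ℂ) (p : Fin 3 → ℂ) : ℂ :=
  p 0 ^ 3 + b * p 0 ^ 2 * p 1 ^ 3 + p 1 ^ 9 + c * p 0 * p 1 ^ 7 + p 2 ^ 2

/-- all exponents of `Q` are at most `9`, and the coefficients of `Q` are within `ε` of those
of `Q'` -/
def Close (ε : ℝ) (Q Q' : ℂ[X][X]) : Prop :=
  (∀ i j, 9 < i ∨ 9 < j → (Q.coeff i).coeff j = 0) ∧
    ∀ i j, ‖(Q.coeff i).coeff j - (Q'.coeff i).coeff j‖ ≤ ε

/-- a germ of biholomorphic map at `0` -/
def LDiff (χ : (Fin 3 → ℂ) → Fin 3 → ℂ) : Prop :=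
  AnalyticAt ℂ χ 0 ∧ χ 0 = 0 ∧ Function.Bijective (fderiv ℂ χ 0)

/-- up to terms of order `10`, `nf c Q R` is equal to `G30 b d ∘ χ` -/
def Dat (c : ℂ) (Q R : ℂ[X][X]) (b d : ℂ) (χ : (Fin 3 → ℂ) → Fin 3 → ℂ) : Prop :=
  LDiff χ ∧ (fun p => nf c Q R p - G30 b d (χ p)) =O[𝓝 0] fun p => ‖p‖ ^ 10

/-- the points `(a ν⁶, ν², 0)` -/
def qq (a : ℂ) (ν : ℝ) : Fin 3 → ℂ := ![a * (ν : ℂ) ^ 6, (ν : ℂ) ^ 2, 0]

/-- `ψ` is a local inverse of `χ` at `0` -/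
def LInv (χ ψ : (Fin 3 → ℂ) → Fin 3 → ℂ) : Prop :=
  LDiff ψ ∧ (∀ᶠ q in 𝓝 0, χ (ψ q) = q) ∧ ∀ᶠ p in 𝓝 0, ψ (χ p) = p

/-- arcs with the expansion `k₁ ν² + k₂ ν⁴ + (k₃ + a k) ν⁶ + o(ν⁶)`, `a` arbitrary, on which
`W = O(ν¹⁸)` -/
def Arcs (W : ℂ[X][X]) : Prop :=
  ∃ k₁ k₂ k₃ k : ℂ × ℂ, k.1 * k₁.2 - k.2 * k₁.1 ≠ 0 ∧ ∀ a : ℂ, ∃ x y : ℝ → ℂ,
    (fun ν : ℝ => x ν - (k₁.1 * (ν : ℂ) ^ 2 + k₂.1 * (ν : ℂ) ^ 4 +
      (k₃.1 + a * k.1) * (ν : ℂ) ^ 6)) =o[𝓝[>] 0] (fun ν : ℝ => ν ^ 6) ∧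
    (fun ν : ℝ => y ν - (k₁.2 * (ν : ℂ) ^ 2 + k₂.2 * (ν : ℂ) ^ 4 +
      (k₃.2 + a * k.2) * (ν : ℂ) ^ 6)) =o[𝓝[>] 0] (fun ν : ℝ => ν ^ 6) ∧
    (fun ν : ℝ => W.evalEval (y ν) (x ν)) =O[𝓝[>] 0] (fun ν : ℝ => ν ^ 18)

/-- `W` belongs to the cube of the ideal `(x - S(y), y³)`, expressed by the coefficients of
`W(S(y) + X, y)` -/
def DivAt (W : ℂ[X][X]) (S : ℂ[X]) : Prop :=
  ∀ r, (X : ℂ[X]) ^ (9 - 3 * r) ∣ (taylor S W).coeff r

/-- `β y + γ y²` -/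
noncomputable def SS (β γ : ℂ) : ℂ[X] := C β * X + C γ * X ^ 2

/-- coefficientwise convergence of polynomials of bounded degree -/
def Conv (W : ℕ → ℂ[X][X]) (W' : ℂ[X][X]) : Prop :=
  (∃ D : ℕ, ∀ n i j, D < i ∨ D < j → ((W n).coeff i).coeff j = 0) ∧
    ∀ i j, Tendsto (fun n => ((W n).coeff i).coeff j) atTop (𝓝 ((W'.coeff i).coeff j))

end Pool.Agent.H15.LU
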