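import Pool.Agent.H15.LU.Targets

set_option autoImplicit false

namespace Pool.Agent.H15.LU.RT3

open Pool.Agent.H15.LU

lemma bounds (a u : ℂ) (ha : ‖a‖ < 1 / 100) (hu : Root a u) : 9 / 10 ≤ ‖u‖ ∧ ‖u‖ ≤ 11 / 10 := by
  unfold Root at hu
  have h1 : ‖u‖ ^ 3 = ‖2 * a * u + 1‖ := by rw [← hu, norm_pow]
  have h2 : ‖2 * a * u + 1‖ ≤ 2 * ‖a‖ * ‖u‖ + 1 := by
    refine (norm_add_le _ _).trans ?_
    simp
  have h3 : 1 - 2 * ‖a‖ * ‖u‖ ≤ ‖2 * a * u + 1‖ := by
    have := norm_sub_norm_le (1 : ℂ) (-(2 * a * u))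
    simp only [norm_one, norm_neg, norm_mul, Complex.norm_ofNat, sub_neg_eq_add] at this
    rw [add_comm] at this
    exact this
  have h4 := norm_nonneg u
  have h5 := norm_nonneg a
  have h6 : ‖a‖ * ‖u‖ ≤ 1 / 100 * ‖u‖ := by gcongr
  constructor
  · by_contra h
    push Not at h
    have : ‖u‖ ^ 3 ≤ (9 / 10) ^ 3 := by gcongr
    nlinarith
  · by_contra h
    push Not at h
    have : ‖u‖ ^ 3 > 11 / 10 * (11 / 10) * ‖u‖ := by nlinarith [sq_nonneg (‖u‖ - 11 / 10)]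
    nlinarith

lemma syms (a u₁ u₂ u₃ : ℂ) (h : Roots3 a u₁ u₂ u₃) :
    u₁ + u₂ + u₃ = 0 ∧ u₁ * u₂ + u₂ * u₃ + u₁ * u₃ = -2 * a ∧ u₁ * u₂ * u₃ = 1 := by
  obtain ⟨h1, h2, h3, h12, h23, h13⟩ := h
  unfold Root at h1 h2 h3
  have e1 : u₁ ^ 2 + u₁ * u₂ + u₂ ^ 2 = 2 * a := by
    apply mul_left_cancel₀ (sub_ne_zero.2 h12)
    linear_combination h1 - h2
  have e2 : u₂ ^ 2 + u₂ * u₃ + u₃ ^ 2 = 2 * a := by
    apply mul_left_cancel₀ (sub_ne_zero.2 h23)
    linear_combination h2 - h3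
  have e3 : u₁ + u₂ + u₃ = 0 := by
    apply mul_left_cancel₀ (sub_ne_zero.2 h13)
    linear_combination e1 - e2
  have e4 : u₃ = -u₁ - u₂ := by linear_combination e3
  refine ⟨e3, ?_, ?_⟩
  · rw [e4]
    linear_combination -e1
  · rw [e4]
    linear_combination h1 - u₁ * e1

theorem rt3 : T_RT3 := by
  refine ⟨?_, syms, bounds⟩
  intro a ha
  obtain ⟨u₁, hu₁⟩ : ∃ u, Root a u := by
    obtain ⟨u, hu⟩ := IsAlgClosed.exists_root (Polynomial.X ^ 3 - Polynomial.C (2 * a) *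
      Polynomial.X - Polynomial.C 1 : Polynomial ℂ) (by
        have : (Polynomial.X ^ 3 - Polynomial.C (2 * a) *
          Polynomial.X - Polynomial.C 1 : Polynomial ℂ).degree = 3 := by compute_degree!
        rw [this]; norm_num)
    refine ⟨u, ?_⟩
    unfold Root
    simp only [Polynomial.IsRoot, Polynomial.eval_sub, Polynomial.eval_pow, Polynomial.eval_X,
      Polynomial.eval_mul, Polynomial.eval_C] at hu
    linear_combination hu
  obtain ⟨s, hs⟩ := IsAlgClosed.exists_pow_nat_eq (8 * a - 3 * u₁ ^ 2) (n := 2) (by norm_num)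
  have b1 := bounds a u₁ ha hu₁
  have hne : ∀ r : ℂ, ‖r‖ ≤ 3 → 3 * u₁ ^ 2 ≠ r * a := by
    intro r hr h
    have h1 : ‖3 * u₁ ^ 2‖ = ‖r * a‖ := by rw [h]
    simp only [norm_mul, norm_pow, Complex.norm_ofNat] at h1
    have h2 : ‖r‖ * ‖a‖ ≤ 3 * (1 / 100) := by
      gcongr
    nlinarith [b1.1]
  have hne8 : 3 * u₁ ^ 2 ≠ 8 * a := by
    intro h
    have h1 : ‖3 * u₁ ^ 2‖ = ‖8 * a‖ := by rw [h]
    simp only [norm_mul, norm_pow, Complex.norm_ofNat] at h1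
    nlinarith [b1.1]
  unfold Root at hu₁
  have r2 : Root a ((-u₁ + s) / 2) := by
    unfold Root
    linear_combination (3 / 8 * (-u₁) + 1 / 8 * s) * hs + hu₁
  have r3 : Root a ((-u₁ - s) / 2) := by
    unfold Root
    linear_combination (3 / 8 * (-u₁) - 1 / 8 * s) * hs + hu₁
  refine ⟨u₁, (-u₁ + s) / 2, (-u₁ - s) / 2, hu₁, r2, r3, ?_, ?_, ?_⟩
  · intro h
    have h1 : s = 3 * u₁ := by linear_combination -2 * h
    have h2 : 3 * u₁ ^ 2 = 2 * a := by
      rw [h1] at hs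
      linear_combination 1 / 4 * hs
    exact hne 2 (by norm_num) h2
  · intro h
    have h1 : s = 0 := by linear_combination h
    rw [h1] at hs
    exact hne8 (by linear_combination hs)
  · intro h
    have h1 : s = -3 * u₁ := by linear_combination 2 * h
    have h2 : 3 * u₁ ^ 2 = 2 * a := by
      rw [h1] at hs
      linear_combination 1 / 4 * hs
    exact hne 2 (by norm_num) h2

lemma val_lower (a c u : ℂ) (h : Small a c) (hu : Root a u) : 1 / 2 ≤ ‖val a c u‖ := by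
  obtain ⟨ha, hc⟩ := h
  obtain ⟨b1, b2⟩ := bounds a u ha hu
  have h1 : ‖3 / 4 * u‖ ≤ ‖val a c u‖ + ‖a / 2 * u ^ 2 + c‖ := by
    have : 3 / 4 * u = val a c u - (a / 2 * u ^ 2 + c) := by unfold val; ring
    rw [this]
    exact norm_sub_le _ _
  have h2 : ‖a / 2 * u ^ 2 + c‖ ≤ ‖a‖ / 2 * ‖u‖ ^ 2 + ‖c‖ := by
    refine (norm_add_le _ _).trans ?_
    simp
  have h3 : ‖3 / 4 * u‖ = 3 / 4 * ‖u‖ := by simp
  have h4 : ‖a‖ / 2 * ‖u‖ ^ 2 ≤ (1 / 100) / 2 * (11 / 10) ^ 2 := by gcongr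
  rw [h3] at h1
  linarith

theorem val_ : T_VAL := by
  intro a c h
  refine ⟨fun u hu => val_lower a c u h hu, ?_⟩
  intro u u' hu hu' hne heq
  have h1 : (u - u') * (a / 2 * (u + u') + 3 / 4) = 0 := by
    unfold val at heq
    linear_combination heq
  rcases mul_eq_zero.1 h1 with h2 | h2
  · exact hne (sub_eq_zero.1 h2)
  · have b1 := bounds a u h.1 hu
    have b2 := bounds a u' h.1 hu'
    have h3 : ‖a / 2 * (u + u')‖ = 3 / 4 := by
      have : a / 2 * (u + u') = -(3 / 4) := by linear_combination h2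
      rw [this]
      simp
    have h4 : ‖a / 2 * (u + u')‖ ≤ (1 / 100) / 2 * (11 / 10 + 11 / 10) := by
      rw [norm_mul, norm_div]
      have : ‖u + u'‖ ≤ 11 / 10 + 11 / 10 := (norm_add_le _ _).trans (by linarith [b1.2, b2.2])
      have ha := h.1
      simp only [Complex.norm_ofNat]
      gcongr
    linarith

end Pool.Agent.H15.LU.RT3
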