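import Pool.Agent.H15.LU.NJ
import Pool.Agent.H15.LU.RT3
import Pool.Agent.H36.LU.BD
import Pool.Agent.H36.LU.C0
import Pool.Agent.H36.LU.CVT
import Pool.Agent.H36.LU.JTN
import Pool.Agent.H47.LU.CLO
import Pool.Agent.H47.LU.FJG
import Pool.Agent.H47.LU.ISO
import Pool.Agent.H47.LU.LMD
import Pool.Agent.H47.LU.SAL
import Pool.Agent.H47.LU.SDM
import Pool.Agent.H30.LU.CRT
import Pool.Agent.H30.LU.DSC
import Pool.Agent.H30.LU.EVL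
import Pool.Agent.H30.LU.GRD
import Pool.Agent.H30.LU.GRN
import Pool.Agent.H30.LU.JKM
import Pool.Agent.H30.LU.LGR
import Pool.Agent.H30.LU.LIM
import Pool.Agent.H30.LU.LIP
import Pool.Agent.H30.LU.NEQ
import Pool.Agent.H32.LU.CTR
import Pool.Agent.H32.LU.INV
import Pool.Agent.H32.LU.NDG
import Pool.Agent.H32.LU.PUA
import Pool.Agent.H32.LU.PUB
import Pool.Agent.H32.LU.PUC
import Pool.Agent.H32.LU.PUI
import Pool.Agent.H59.LU.CVW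
import Pool.Agent.H59.LU.FIN
import Pool.Agent.H59.LU.TAY
import Pool.Agent.H5.LU.END
import Pool.Agent.H5.LU.SQR
import Pool.Agent.H5.LU.UNI
import Pool.Agent.H69.LU.EXP
import Pool.Agent.H69.LU.INJ
import Pool.Agent.H7.LU.GRO
import Pool.Agent.H7.LU.RAT
import Pool.Agent.H2.LU.JAN
import Pool.Agent.H57.LU.LCA
import Pool.Agent.H57.LU.LCB
import Pool.Agent.H77.LU.NF
import Pool.Agent.H77.LU.NFD
import Pool.Agent.H77.LU.NFI
import Pool.Agent.H77.LU.NFS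
import Pool.Agent.H77.LU.NFZ
import Pool.Agent.H48.LU.SEQ
import Pool.Agent.H48.LU.TYA

set_option autoImplicit false

namespace Pool.Agent.H15.LU.Final

open Pool.Agent.H15.LU

-- facts
theorem a_RT3 : T_RT3 := Pool.Agent.H15.LU.RT3.rt3
theorem a_VAL : T_VAL := Pool.Agent.H15.LU.RT3.val_
theorem a_GRD : T_GRD := Pool.Agent.H30.LU.GRD.grd
theorem a_GRN : T_GRN := Pool.Agent.H30.LU.GRN.grn
theorem a_LGR : T_LGR := Pool.Agent.H30.LU.LGR.lgr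
theorem a_LIP : T_LIP := Pool.Agent.H30.LU.LIP.lip a_LGR
theorem a_CRT : T_CRT := Pool.Agent.H30.LU.CRT.crt a_VAL
theorem a_LCA : T_LCA := Pool.Agent.H57.LU.LCA.lca a_CRT a_GRN
theorem a_LCB : T_LCB := Pool.Agent.H57.LU.LCB.lcb a_LCA a_GRN
theorem a_DSC : T_DSC := Pool.Agent.H30.LU.DSC.dsc a_RT3
theorem a_INJ : T_INJ := Pool.Agent.H69.LU.INJ.inj a_DSC
theorem a_FJG : T_FJG := Pool.Agent.H47.LU.fjg
theorem a_SAL : T_SAL := Pool.Agent.H47.LU.sal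
theorem a_SDM : T_SDM := Pool.Agent.H47.LU.sdm
theorem a_CLO : T_CLO := Pool.Agent.H47.LU.clo a_FJG
theorem a_ISO : T_ISO := Pool.Agent.H47.LU.ISO.iso a_GRD a_CRT
theorem a_JAN : T_JAN := Pool.Agent.H2.LU.JAN.jan
theorem a_JKM : T_JKM := Pool.Agent.H30.LU.JKM.jkm
theorem a_J10 : T_J10 := Pool.Agent.H15.LU.jtn a_JAN a_JKM
theorem a_UNI : T_UNI := Pool.Agent.H5.LU.uni
theorem a_PFT : T_PFT := Pool.Agent.H77.LU.NFZ.pft
theorem a_TYA : T_TYA := Pool.Agent.H48.LU.TYA.tya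
theorem a_TAY : T_TAY := Pool.Agent.H59.LU.TAY.tay a_TYA
theorem a_NFS : T_NFS := Pool.Agent.H77.LU.NFS.nfs
theorem a_NFZ : T_NFZ := Pool.Agent.H77.LU.NFZ.nfz
theorem a_NFD : T_NFD := Pool.Agent.H77.LU.NFD.nfd
theorem a_NFI : T_NFI := Pool.Agent.H77.LU.NFI.nfi a_NFS a_NFZ a_NFD
theorem a_NF : T_NF := Pool.Agent.H77.LU.NF.nf_ a_NFI
theorem a_SEQ : T_SEQ := Pool.Agent.H48.LU.SEQ.seq a_UNI a_PFT a_TAY a_NF
theorem a_GRO : T_GRO := Pool.Agent.H7.LU.pf_GRO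
theorem a_EXP : T_EXP := Pool.Agent.H69.LU.EXP.exp_
theorem a_C0 : T_C0 := Pool.Agent.H15.LU.c0
theorem a_PUA : T_PUA := Pool.Agent.H32.LU.pua
theorem a_PUB : T_PUB := Pool.Agent.H32.LU.pub
theorem a_PUC : T_PUC := Pool.Agent.H32.LU.puc
theorem a_PUI : T_PUI := Pool.Agent.H32.LU.pui a_PUA a_PUB a_PUC
theorem a_W4 : T_W4 := Pool.Agent.H32.LU.w4
theorem a_CVW : T_CVW := Pool.Agent.H59.LU.CVW.cvw
theorem a_CVT : T_CVT := Pool.Agent.H15.LU.cvt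
theorem a_BD : T_BD := Pool.Agent.H15.LU.bd a_CVT
theorem a_EVL : T_EVL := Pool.Agent.H30.LU.EVL.evl
theorem a_LIM : T_LIM := Pool.Agent.H30.LU.LIM.lim_
theorem a_CTR : T_CTR := Pool.Agent.H32.LU.ctr
theorem a_SQR : T_SQR := Pool.Agent.H5.LU.sqr
theorem a_FIN : T_FIN := Pool.Agent.H59.LU.FIN.fin_ a_CVW a_CVT a_EVL a_LIM a_CTR a_SQR
theorem a_END : T_END := Pool.Agent.H5.LU.end_ a_BD a_CVW a_FIN

theorem a_INV : T_INV := Pool.Agent.H32.LU.inv_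
theorem a_NDG : T_NDG := Pool.Agent.H32.LU.ndg
theorem a_RAT : T_RAT := Pool.Agent.H7.LU.pf_RAT a_GRD a_GRN a_LIP a_LCB a_VAL

/-- the answer to the question is negative -/
theorem main :
    ¬ Question ∧ Isolated f₀ ∧ DeformsTo f₀ (J10 1) ∧ ¬ DeformsTo f₀ (J30 1) ∧
      ∀ k, 7 ≤ k → 2 ≤ Lmod k f₀ := by
  have hNEQ : T_NEQ := Pool.Agent.H30.LU.NEQ.neq a_RT3 a_RAT a_INJ
  have hLMD : T_LMD := Pool.Agent.H47.LU.lmd hNEQ a_FJG a_SAL a_SDM a_CLO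
  have hARC : T_ARC := Pool.Agent.H15.LU.NJ.arc a_INV a_GRO a_NDG a_EXP
  have hNJ : T_NJ := Pool.Agent.H15.LU.NJ.nj a_SEQ hARC a_C0 a_PUI a_W4 a_END
  refine ⟨?_, a_ISO, a_J10, hNJ, hLMD⟩
  intro hQ
  have h1 := (hQ 1 f₀ a_ISO).2 ⟨a_J10, hNJ⟩
  obtain ⟨K, hK⟩ := Filter.eventually_atTop.1 h1
  have h2 := hK (max K 7) (le_max_left _ _)
  have h3 := hLMD (max K 7) (le_max_right _ _)
  omega

end Pool.Agent.H15.LU.Final
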