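import Pool.Agent.H15.LU.Targets

set_option autoImplicit false

namespace Pool.Agent.H15.LU.NJ

open Pool.Agent.H15.LU Filter Topology Asymptotics Polynomial

lemma close_mono {ε ε' : ℝ} (h : ε ≤ ε') {Q Q' : ℂ[X][X]} (hQ : Close ε Q Q') : Close ε' Q Q' :=
  ⟨hQ.1, fun i j => (hQ.2 i j).trans h⟩

theorem nj (h1 : T_SEQ) (h2 : T_ARC) (h3 : T_C0) (h4 : T_PUI) (h5 : T_W4) (h6 : T_END) :
    T_NJ := by
  intro hd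
  obtain ⟨ε₁, hε₁, H1⟩ := h5
  obtain ⟨ε₂, hε₂, H2⟩ := h6
  obtain ⟨c, Q, R, b, d, χ, hc, hQ, hR, hD⟩ := h1 hd (min ε₁ ε₂) (lt_min hε₁ hε₂)
  obtain ⟨w1, w2⟩ := H1 c Q R (hc.trans (min_le_left _ _)) (close_mono (min_le_left _ _) hQ)
    (close_mono (min_le_left _ _) hR)
  by_cases hc0 : c = 0
  · subst hc0
    exact w2 (h3 Q R b d χ hD)
  · rcases h4 _ (h2 c Q R b d χ hc0 hD) with h | ⟨β, γ, h⟩
    · exact w1 h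
    · exact H2 c Q R (hc.trans (min_le_right _ _)) hc0 (close_mono (min_le_right _ _) hQ)
        (close_mono (min_le_right _ _) hR) β γ h

theorem arc (h1 : T_INV) (h2 : T_GRO) (h3 : T_NDG) (h4 : T_EXP) : T_ARC := by
  intro c Q R b d χ hc hD
  obtain ⟨ψ, hψ⟩ := h1 χ hD.1
  obtain ⟨k₂, k₃, hk⟩ := h4 ψ hψ.1
  refine ⟨(fderiv ℂ ψ 0 ![0, 1, 0] 0, fderiv ℂ ψ 0 ![0, 1, 0] 1), (k₂ 0, k₂ 1), (k₃ 0, k₃ 1),
    (fderiv ℂ ψ 0 ![1, 0, 0] 0, fderiv ℂ ψ 0 ![1, 0, 0] 1), ?_, ?_⟩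
  · exact h3 c Q R b d χ ψ hc hD hψ
  · intro a
    exact ⟨fun ν => ψ (qq a ν) 0, fun ν => ψ (qq a ν) 1, hk a 0, hk a 1,
      h2 c Q R b d χ ψ hD hψ a⟩

end Pool.Agent.H15.LU.NJ
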