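import Mathlib

/-!
# Bi-Lipschitz right equivalence of germs of holomorphic functions: definitions

Germs at `0` of functions on `ℂ ^ n` are represented by functions on `Fin n → ℂ`; only their
values near `0` matter.
-/

set_option autoImplicit false

namespace Pool.Agent.H15.LU

open Filter Topology Asymptotics

/-- `f` is analytic at `0`, belongs to the square of the maximal ideal and has an isolated
singularity at `0` -/
def Isolated {n : ℕ} (f : (Fin n → ℂ) → ℂ) : Prop :=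
  AnalyticAt ℂ f 0 ∧ f 0 = 0 ∧ fderiv ℂ f 0 = 0 ∧ ∀ᶠ p in 𝓝 0, fderiv ℂ f p = 0 → p = 0

/-- analytic right equivalence: `f = g ∘ φ` near `0`, `φ` a germ of biholomorphic map -/
def REquiv {n : ℕ} (f g : (Fin n → ℂ) → ℂ) : Prop :=
  ∃ φ : (Fin n → ℂ) → Fin n → ℂ, AnalyticAt ℂ φ 0 ∧ φ 0 = 0 ∧
    Function.Bijective (fderiv ℂ φ 0) ∧ ∀ᶠ p in 𝓝 0, f p = g (φ p)

/-- bi-Lipschitz right equivalence: `f = g ∘ φ` near `0`, `φ` a germ of bi-Lipschitz
homeomorphism -/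
def LipEquiv {n : ℕ} (f g : (Fin n → ℂ) → ℂ) : Prop :=
  ∃ (φ : (Fin n → ℂ) → Fin n → ℂ) (U : Set (Fin n → ℂ)) (K : ℝ),
    U ∈ 𝓝 0 ∧ φ '' U ∈ 𝓝 0 ∧ φ 0 = 0 ∧
    (∀ p ∈ U, ∀ q ∈ U, ‖φ p - φ q‖ ≤ K * ‖p - q‖ ∧ ‖p - q‖ ≤ K * ‖φ p - φ q‖) ∧
    ∀ p ∈ U, f p = g (φ p)

/-- exponents of the monomials of degree `1, …, k` in `n` variables -/
abbrev Exps (n k : ℕ) : Type := {m : Fin n → ℕ // 0 < ∑ i, m i ∧ ∑ i, m i ≤ k}

instance (n k : ℕ) : Finite (Exps n k) :=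
  Finite.of_injective (β := Fin n → Fin (k + 1))
    (fun m i => ⟨m.1 i, Nat.lt_succ_of_le
      ((Finset.single_le_sum (fun _ _ => Nat.zero_le _) (Finset.mem_univ i)).trans m.2.2)⟩)
    (fun m m' h => Subtype.ext (funext fun i => by simpa using congrFun h i))

noncomputable instance (n k : ℕ) : Fintype (Exps n k) := Fintype.ofFinite _

/-- the space of `k`-jets at `0` of germs vanishing at `0` -/
abbrev Jet (n k : ℕ) : Type := Exps n k → ℂ

/-- the germ (a polynomial) given by a jet -/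
noncomputable def Jet.germ {n k : ℕ} (c : Jet n k) (p : Fin n → ℂ) : ℂ :=
  ∑ m, c m * ∏ i, p i ^ m.1 i

/-- `c` is the `k`-jet of `f` at `0` -/
def IsJet {n k : ℕ} (f : (Fin n → ℂ) → ℂ) (c : Jet n k) : Prop :=
  (fun p => f p - c.germ p) =O[𝓝 0] fun p => ‖p‖ ^ (k + 1)

/-- real coordinates -/
def coord {ι : Type} (c : ι → ℂ) (i : ι × Bool) : ℝ := if i.2 then (c i.1).im else (c i.1).re

/-- semialgebraic subsets of `ℂ ^ ι = ℝ ^ (ι × Bool)` -/
inductive SemiAlg {ι : Type} : Set (ι → ℂ) → Prop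
  | pos (P : MvPolynomial (ι × Bool) ℝ) : SemiAlg {c | 0 < MvPolynomial.eval (coord c) P}
  | compl {S : Set (ι → ℂ)} : SemiAlg S → SemiAlg Sᶜ
  | union {S T : Set (ι → ℂ)} : SemiAlg S → SemiAlg T → SemiAlg (S ∪ T)

/-- dimension of a semialgebraic set: the largest `d` such that its image under the projection
to some `d` real coordinates has an interior point -/
noncomputable def saDim {ι : Type} (S : Set (ι → ℂ)) : ℕ :=
  sSup {d | ∃ e : Fin d ↪ ι × Bool, (interior ((fun c i => coord c (e i)) '' S)).Nonempty}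

/-- the number `m` of the definition of the Lipschitz modality: the largest dimension of a
semialgebraic set of `k`-jets, the closure of which contains the jet of `f`, such that different
elements of the set are not bi-Lipschitz equivalent -/
noncomputable def lipDim {n : ℕ} (k : ℕ) (f : (Fin n → ℂ) → ℂ) : ℕ :=
  sSup {d | ∃ S : Set (Jet n k), SemiAlg S ∧ (∃ c ∈ closure S, IsJet f c) ∧
    (∀ a ∈ S, ∀ b ∈ S, a ≠ b → ¬ LipEquiv a.germ b.germ) ∧ saDim S = d}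

/-- Lipschitz modality, computed with `k`-jets -/
noncomputable def Lmod {n : ℕ} (k : ℕ) (f : (Fin n → ℂ) → ℂ) : ℕ := lipDim k f / 2

/-- `f` deforms to the family `D`: there is an analytic germ `F` on `ℂ ^ n × ℂ ^ p` with
`F (·, 0) = f` such that `F (·, t)` is right equivalent to a member of `D` for arbitrarily small
`t ≠ 0` -/
def DeformsTo {n : ℕ} (f : (Fin n → ℂ) → ℂ) (D : Set ((Fin n → ℂ) → ℂ)) : Prop :=
  ∃ (p : ℕ) (F : (Fin n → ℂ) × (Fin p → ℂ) → ℂ), AnalyticAt ℂ F 0 ∧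
    (∀ᶠ x in 𝓝 0, F (x, 0) = f x) ∧
    ∀ ε : ℝ, 0 < ε → ∃ t, t ≠ 0 ∧ ‖t‖ < ε ∧ ∃ g ∈ D, REquiv (fun x => F (x, t)) g

/-- the family `J_{10}` in `m + 2` variables -/
def J10 (m : ℕ) : Set ((Fin (m + 2) → ℂ) → ℂ) :=
  {g | ∃ b : ℂ, 4 * b ^ 3 + 27 ≠ 0 ∧ g = fun p => p 0 ^ 3 + b * p 0 ^ 2 * p 1 ^ 2 + p 1 ^ 6 +
    ∑ i : Fin m, p i.succ.succ ^ 2}

/-- the family `J_{3,0}` in `m + 2` variables -/
def J30 (m : ℕ) : Set ((Fin (m + 2) → ℂ) → ℂ) :=
  {g | ∃ b c : ℂ, 4 * b ^ 3 + 27 ≠ 0 ∧ g = fun p => p 0 ^ 3 + b * p 0 ^ 2 * p 1 ^ 3 + p 1 ^ 9 +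
    c * p 0 * p 1 ^ 7 + ∑ i : Fin m, p i.succ.succ ^ 2}

/-- the question: for every germ `f` with an isolated singularity, the Lipschitz modality of `f`
(computed with `k`-jets, `k` sufficiently large) is `1` if and only if `f` deforms to `J_{10}`
and does not deform to `J_{3,0}` -/
def Question : Prop :=
  ∀ (m : ℕ) (f : (Fin (m + 2) → ℂ) → ℂ), Isolated f →
    ((∀ᶠ k in atTop, Lmod k f = 1) ↔ DeformsTo f (J10 m) ∧ ¬ DeformsTo f (J30 m))

/-- the counterexample `y z² + x² z + x y⁵` -/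
def f₀ (p : Fin 3 → ℂ) : ℂ := p 1 * p 2 ^ 2 + p 0 ^ 2 * p 2 + p 0 * p 1 ^ 5

end Pool.Agent.H15.LU
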