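import Pool.Agent.H15.LU.Defs

/-!
# MP_812e67_ag: targets of the modules (board `lu_modules`)
-/

set_option autoImplicit false

namespace Pool.Agent.H15.LU

open Filter Topology Asymptotics Polynomial

/-! ### Part L: Lipschitz modality of `f₀` -/

def T_GRD : Prop := ∀ (a c : ℂ) (p : Fin 3 → ℂ), HasFDerivAt (fam a c) (grad a c p) p

def T_GRN : Prop := ∀ (a c : ℂ) (p : Fin 3 → ℂ),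
  ‖dx a p‖ ≤ ‖grad a c p‖ ∧ ‖dy a c p‖ ≤ ‖grad a c p‖ ∧ ‖dz p‖ ≤ ‖grad a c p‖ ∧
    ‖grad a c p‖ ≤ ‖dx a p‖ + ‖dy a c p‖ + ‖dz p‖

def T_LGR : Prop := ∀ (n : ℕ) (f g : (Fin n → ℂ) → ℂ) (ψ : (Fin n → ℂ) → Fin n → ℂ) (K : ℝ)
  (q : Fin n → ℂ) (A B : (Fin n → ℂ) →L[ℂ] ℂ), 0 ≤ K → HasFDerivAt f A (ψ q) →
  HasFDerivAt g B q → (∀ᶠ r in 𝓝 q, ‖ψ r - ψ q‖ ≤ K * ‖r - q‖) →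
  (∀ᶠ r in 𝓝 q, g r = f (ψ r)) → ‖B‖ ≤ K * ‖A‖

def T_LIP : Prop := ∀ f g : (Fin 3 → ℂ) → ℂ, LipEquiv f g →
  ∃ (φ : (Fin 3 → ℂ) → Fin 3 → ℂ) (K δ : ℝ), 0 < K ∧ 0 < δ ∧ φ 0 = 0 ∧
    (∀ p q, ‖p‖ < δ → ‖q‖ < δ →
      ‖φ p - φ q‖ ≤ K * ‖p - q‖ ∧ ‖p - q‖ ≤ K * ‖φ p - φ q‖) ∧
    (∀ p, ‖p‖ < δ → f p = g (φ p)) ∧
    ∀ p, ‖p‖ < δ → ∀ A B : (Fin 3 → ℂ) →L[ℂ] ℂ, HasFDerivAt f A p →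
      HasFDerivAt g B (φ p) → ‖B‖ ≤ K * ‖A‖

def T_CRT : Prop := ∀ (a c : ℂ) (p : Fin 3 → ℂ), Small a c → dx a p = 0 → dy a c p = 0 →
  dz p = 0 → p = 0

def T_RT3 : Prop :=
  (∀ a : ℂ, ‖a‖ < 1 / 100 → ∃ u₁ u₂ u₃, Roots3 a u₁ u₂ u₃) ∧
  (∀ a u₁ u₂ u₃ : ℂ, Roots3 a u₁ u₂ u₃ →
    u₁ + u₂ + u₃ = 0 ∧ u₁ * u₂ + u₂ * u₃ + u₁ * u₃ = -2 * a ∧ u₁ * u₂ * u₃ = 1) ∧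
  ∀ a u : ℂ, ‖a‖ < 1 / 100 → Root a u → 9 / 10 ≤ ‖u‖ ∧ ‖u‖ ≤ 11 / 10

def T_VAL : Prop := ∀ a c : ℂ, Small a c →
  (∀ u, Root a u → 1 / 2 ≤ ‖val a c u‖) ∧
    ∀ u u', Root a u → Root a u' → u ≠ u' → val a c u ≠ val a c u'

def T_LCA : Prop := ∀ (a c : ℂ) (C : ℝ), Small a c → 0 < C → ∃ D δ : ℝ, 0 < D ∧ 0 < δ ∧
  ∀ p : Fin 3 → ℂ, p ≠ 0 → ‖p‖ < δ → ‖grad a c p‖ ≤ C * ‖p‖ ^ 6 →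
    ‖p‖ ≤ D * ‖p 1‖ ∧ ‖p 0‖ ≤ D * ‖p 1‖ ^ 2 ∧ ‖p 2‖ ≤ D * ‖p 1‖ ^ 3

def T_LCB : Prop := ∀ (a c : ℂ) (C : ℝ) (P : ℕ → Fin 3 → ℂ), Small a c → 0 < C →
  Tendsto P atTop (𝓝 0) → (∀ n, P n ≠ 0) → (∀ n, ‖grad a c (P n)‖ ≤ C * ‖P n‖ ^ 6) →
  ∃ (s : ℕ → ℕ) (u : ℂ) (D : ℝ), StrictMono s ∧ Root a u ∧
    (∀ n, ‖P (s n)‖ ≤ D * ‖P (s n) 1‖) ∧
    Tendsto (fun n => fam a c (P (s n)) / P (s n) 1 ^ 7) atTop (𝓝 (val a c u))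

def T_RAT : Prop := ∀ a c a' c' : ℂ, Small a c → Small a' c' →
  LipEquiv (fam a c) (fam a' c') → ∀ u₁ u₂ u₃, Roots3 a u₁ u₂ u₃ →
  ∃ κ v₁ v₂ v₃, Roots3 a' v₁ v₂ v₃ ∧ val a' c' v₁ = κ * val a c u₁ ∧
    val a' c' v₂ = κ * val a c u₂ ∧ val a' c' v₃ = κ * val a c u₃

def T_DSC : Prop := ∀ a c u₁ u₂ u₃ : ℂ, Roots3 a u₁ u₂ u₃ → ∀ v₁ v₂ v₃,
  v₁ = val a c u₁ → v₂ = val a c u₂ → v₃ = val a c u₃ →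
  v₁ + v₂ + v₃ = 3 * c + 2 * a ^ 2 ∧
  (v₁ + v₂ + v₃) ^ 2 - 3 * (v₁ * v₂ + v₂ * v₃ + v₁ * v₃) = a * (a ^ 3 + 27 / 4) ∧
  2 * (v₁ + v₂ + v₃) ^ 3 - 9 * (v₁ + v₂ + v₃) * (v₁ * v₂ + v₂ * v₃ + v₁ * v₃) +
    27 * (v₁ * v₂ * v₃) = 729 / 64 + 135 / 4 * a ^ 3 - 2 * a ^ 6 ∧
  ((v₁ - v₂) * (v₂ - v₃) * (v₁ - v₃)) ^ 2 = -((27 - 32 * a ^ 3) / 16) ^ 3

def T_INJ : Prop := ∀ a c a' c' κ u₁ u₂ u₃ v₁ v₂ v₃ : ℂ, Small a c → Small a' c' →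
  Sector c → Sector c' → Roots3 a u₁ u₂ u₃ → Roots3 a' v₁ v₂ v₃ →
  val a' c' v₁ = κ * val a c u₁ → val a' c' v₂ = κ * val a c u₂ →
  val a' c' v₃ = κ * val a c u₃ → a = a' ∧ c = c'

def T_NEQ : Prop := ∀ a c a' c' : ℂ, Small a c → Small a' c' → Sector c → Sector c' →
  LipEquiv (fam a c) (fam a' c') → a = a' ∧ c = c'

def T_FJG : Prop := ∀ (k : ℕ) (a c : ℂ), 7 ≤ k → (famJet k a c).germ = fam a c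

def T_SAL : Prop := ∀ k : ℕ, 7 ≤ k → SemiAlg (SJ k)

def T_SDM : Prop := ∀ k : ℕ, 7 ≤ k → 4 ≤ saDim (SJ k)

def T_CLO : Prop := ∀ k : ℕ, 7 ≤ k → famJet k 0 0 ∈ closure (SJ k) ∧ IsJet f₀ (famJet k 0 0)

def T_LMD : Prop := ∀ k : ℕ, 7 ≤ k → 2 ≤ Lmod k f₀

def T_ISO : Prop := Isolated f₀

/-! ### Part J: adjacency to `J_{10}` -/

def T_JAN : Prop := ∀ t : ℂ, t ≠ 0 → ∃ G H S : (Fin 3 → ℂ) → ℂ,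
  AnalyticAt ℂ G 0 ∧ AnalyticAt ℂ H 0 ∧ AnalyticAt ℂ S 0 ∧ G 0 ≠ 0 ∧ H 0 ≠ 0 ∧ S 0 ≠ 0 ∧
    ∀ᶠ p in 𝓝 0, p 1 + t ≠ 0 ∧ G p ≠ 0 ∧ G p ^ 3 = t - p 0 / (4 * (p 1 + t)) ∧
      H p ^ 4 = (p 1 + t) / G p ∧ S p ^ 2 = p 1 + t

def T_JKM : Prop := ∃ κ μ b : ℂ, μ ≠ 0 ∧ 4 * b ^ 3 + 27 ≠ 0 ∧ ∀ X Y : ℂ,
  X ^ 3 + X * Y ^ 4 =
    (X - κ * Y ^ 2) ^ 3 + b * (X - κ * Y ^ 2) ^ 2 * (μ * Y) ^ 2 + (μ * Y) ^ 6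

def T_J10 : Prop := DeformsTo f₀ (J10 1)

/-! ### Part N: nonadjacency to `J_{3,0}` -/

def T_UNI : Prop := ∀ T : E9 → ℂ, (pf T =O[𝓝 0] fun p => ‖p‖ ^ 10) → T = 0

def T_PFT : Prop := pf T₀ = f₀

def T_TYA : Prop := ∀ m k : ℕ, k ≤ 9 →
  ∃ L : ContinuousMultilinearMap ℂ (fun _ : Fin k => (Fin 3 → ℂ) × (Fin m → ℂ)) ℂ → E9 → ℂ,
    Continuous L ∧ ∀ M (p : Fin 3 → ℂ), M (fun _ => (p, 0)) = pf (L M) p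

def T_TAY : Prop := ∀ (m : ℕ) (F : (Fin 3 → ℂ) × (Fin m → ℂ) → ℂ), AnalyticAt ℂ F 0 →
  ∃ T : (Fin m → ℂ) → E9 → ℂ, (∀ e, Tendsto (fun t => T t e) (𝓝 0) (𝓝 (T 0 e))) ∧
    ∀ᶠ t in 𝓝 0, (fun p => F (p, t) - pf (T t) p) =O[𝓝 0] fun p => ‖p‖ ^ 10

def T_NFS : Prop := ∀ m : Fin 3 →₀ ℕ,
  ContDiff ℂ 1 fun v : (E9 → ℂ) × (E7 → ℂ) => (sb v.1 v.2).coeff m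

def T_NFZ : Prop := (∀ e, HH T₀ 0 e = 0) ∧ sb T₀ 0 = tp T₀

def T_NFD : Prop := ∀ r : E7 → ℂ, ∃ δ : E7 → ℂ, ∀ e,
  HasDerivAt (fun s : ℂ => HH T₀ (s • δ) e) (r e) 0

def T_NFI : Prop := ∀ ε : ℝ, 0 < ε → ∃ δ : ℝ, 0 < δ ∧ ∀ T : E9 → ℂ,
  (∀ e, ‖T e - T₀ e‖ ≤ δ) → ∃ w : E7 → ℂ, (∀ e, ‖w e‖ ≤ ε) ∧ (∀ e, HH T w e = 0) ∧
    ∀ m : Fin 3 →₀ ℕ, m.degree ≤ 9 → ‖(sb T w).coeff m - (tp T₀).coeff m‖ ≤ ε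

def T_NF : Prop := ∀ ε : ℝ, 0 < ε → ∃ δ : ℝ, 0 < δ ∧ ∀ T : E9 → ℂ,
  (∀ e, ‖T e - T₀ e‖ ≤ δ) → ∃ (θ : (Fin 3 → ℂ) → Fin 3 → ℂ) (c : ℂ) (Q R : ℂ[X][X]),
    LDiff θ ∧ ‖c‖ ≤ ε ∧ Close ε Q Q₀ ∧ Close ε R R₀ ∧
    (fun p => pf T (θ p) - nf c Q R p) =O[𝓝 0] fun p => ‖p‖ ^ 10

def T_SEQ : Prop := DeformsTo f₀ (J30 1) → ∀ ε : ℝ, 0 < ε →
  ∃ (c : ℂ) (Q R : ℂ[X][X]) (b d : ℂ) (χ : (Fin 3 → ℂ) → Fin 3 → ℂ),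
    ‖c‖ ≤ ε ∧ Close ε Q Q₀ ∧ Close ε R R₀ ∧ Dat c Q R b d χ

def T_INV : Prop := ∀ χ, LDiff χ → ∃ ψ, LInv χ ψ

def T_GRO : Prop := ∀ (c : ℂ) (Q R : ℂ[X][X]) (b d : ℂ) (χ ψ : (Fin 3 → ℂ) → Fin 3 → ℂ),
  Dat c Q R b d χ → LInv χ ψ → ∀ a : ℂ,
  (fun ν : ℝ => (ww c Q R).evalEval (ψ (qq a ν) 1) (ψ (qq a ν) 0)) =O[𝓝[>] 0]
    fun ν : ℝ => ν ^ 18

def T_NDG : Prop := ∀ (c : ℂ) (Q R : ℂ[X][X]) (b d : ℂ) (χ ψ : (Fin 3 → ℂ) → Fin 3 → ℂ),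
  c ≠ 0 → Dat c Q R b d χ → LInv χ ψ →
  fderiv ℂ ψ 0 ![1, 0, 0] 0 * fderiv ℂ ψ 0 ![0, 1, 0] 1 -
    fderiv ℂ ψ 0 ![1, 0, 0] 1 * fderiv ℂ ψ 0 ![0, 1, 0] 0 ≠ 0

def T_EXP : Prop := ∀ ψ : (Fin 3 → ℂ) → Fin 3 → ℂ, LDiff ψ → ∃ k₂ k₃ : Fin 3 → ℂ,
  ∀ (a : ℂ) (i : Fin 3), (fun ν : ℝ => ψ (qq a ν) i -
    (fderiv ℂ ψ 0 ![0, 1, 0] i * (ν : ℂ) ^ 2 + k₂ i * (ν : ℂ) ^ 4 +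
      (k₃ i + a * fderiv ℂ ψ 0 ![1, 0, 0] i) * (ν : ℂ) ^ 6)) =o[𝓝[>] 0] fun ν : ℝ => ν ^ 6

def T_ARC : Prop := ∀ (c : ℂ) (Q R : ℂ[X][X]) (b d : ℂ) (χ : (Fin 3 → ℂ) → Fin 3 → ℂ),
  c ≠ 0 → Dat c Q R b d χ → Arcs (ww c Q R)

def T_C0 : Prop := ∀ (Q R : ℂ[X][X]) (b d : ℂ) (χ : (Fin 3 → ℂ) → Fin 3 → ℂ),
  Dat 0 Q R b d χ → (Q.coeff 2).coeff 0 = 0

def T_PUA : Prop := ∀ (W : ℂ[X][X]) (S : ℂ[X]) (k : ℂ), k ≠ 0 → (∀ a : ℂ, ∃ x y : ℝ → ℂ,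
    (fun ν : ℝ => x ν - (S.eval (y ν) + a * y ν ^ 3)) =o[𝓝[>] 0] (fun ν : ℝ => ν ^ 6) ∧
    (fun ν : ℝ => y ν - k * (ν : ℂ) ^ 2) =o[𝓝[>] 0] (fun ν : ℝ => ν ^ 2) ∧
    (fun ν : ℝ => W.evalEval (y ν) (x ν)) =O[𝓝[>] 0] (fun ν : ℝ => ν ^ 18)) → DivAt W S

def T_PUB : Prop := ∀ k₁ k₂ k₃ k : ℂ × ℂ, k.1 * k₁.2 - k.2 * k₁.1 ≠ 0 → k₁.2 ≠ 0 →
  ∃ γ : ℂ, ∀ a' : ℂ, ∃ a : ℂ, ∀ x y : ℝ → ℂ,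
    (fun ν : ℝ => x ν - (k₁.1 * (ν : ℂ) ^ 2 + k₂.1 * (ν : ℂ) ^ 4 +
      (k₃.1 + a * k.1) * (ν : ℂ) ^ 6)) =o[𝓝[>] 0] (fun ν : ℝ => ν ^ 6) →
    (fun ν : ℝ => y ν - (k₁.2 * (ν : ℂ) ^ 2 + k₂.2 * (ν : ℂ) ^ 4 +
      (k₃.2 + a * k.2) * (ν : ℂ) ^ 6)) =o[𝓝[>] 0] (fun ν : ℝ => ν ^ 6) →
    (fun ν : ℝ => x ν - ((SS (k₁.1 / k₁.2) γ).eval (y ν) + a' * y ν ^ 3)) =o[𝓝[>] 0]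
      (fun ν : ℝ => ν ^ 6) ∧
    (fun ν : ℝ => y ν - k₁.2 * (ν : ℂ) ^ 2) =o[𝓝[>] 0] (fun ν : ℝ => ν ^ 2)

def T_PUC : Prop := ∀ (W W' : ℂ[X][X]) (γ : ℂ), (∀ i j, (W'.coeff i).coeff j =
  (W.coeff j).coeff i) → DivAt W' (SS 0 γ) → (W.coeff 4).coeff 0 = 0

def T_PUI : Prop := ∀ W : ℂ[X][X], Arcs W →
  (W.coeff 4).coeff 0 = 0 ∨ ∃ β γ : ℂ, DivAt W (SS β γ)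

def T_W4 : Prop := ∃ ε : ℝ, 0 < ε ∧ ∀ (c : ℂ) (Q R : ℂ[X][X]), ‖c‖ ≤ ε → Close ε Q Q₀ →
  Close ε R R₀ → ((ww c Q R).coeff 4).coeff 0 ≠ 0 ∧ (Q.coeff 2).coeff 0 ≠ 0

def T_CVW : Prop := ∀ (c : ℕ → ℂ) (Q R : ℕ → ℂ[X][X]), Tendsto c atTop (𝓝 0) → Conv Q Q₀ →
  Conv R R₀ → Conv (fun n => ww (c n) (Q n) (R n)) W₀

def T_CVT : Prop := ∀ (W : ℕ → ℂ[X][X]) (W' : ℂ[X][X]) (β γ : ℕ → ℂ) (β' γ' : ℂ), Conv W W' →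
  Tendsto β atTop (𝓝 β') → Tendsto γ atTop (𝓝 γ') →
  Conv (fun n => taylor (SS (β n) (γ n)) (W n)) (taylor (SS β' γ') W')

def T_BD : Prop := ∀ (W : ℕ → ℂ[X][X]) (β γ : ℕ → ℂ), Conv W W₀ →
  (∀ n, (X : ℂ[X]) ^ 9 ∣ (taylor (SS (β n) (γ n)) (W n)).coeff 0) →
  ∃ (s : ℕ → ℕ) (γ' : ℂ), StrictMono s ∧ Tendsto (fun n => β (s n)) atTop (𝓝 0) ∧
    Tendsto (fun n => γ (s n)) atTop (𝓝 γ') ∧ γ' ^ 4 = 4 * γ'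

def T_EVL : Prop := ∀ (P : ℕ → ℂ[X][X]) (P' : ℂ[X][X]) (y : ℕ → ℂ) (r m : ℕ), Conv P P' →
  Tendsto y atTop (𝓝 0) → (∀ n, (X : ℂ[X]) ^ m ∣ (P n).coeff r) →
  ∃ e : ℕ → ℂ, Tendsto e atTop (𝓝 ((P'.coeff r).coeff m)) ∧
    ∀ n, ((P n).coeff r).eval (y n) = y n ^ m * e n

def T_LIM : Prop := ∀ γ : ℂ, γ ^ 4 = 4 * γ →
  ((taylor (SS 0 γ) W₀).coeff 0).coeff 9 = 0 ∧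
  ((taylor (SS 0 γ) W₀).coeff 1).coeff 6 = 4 * γ ^ 3 - 4 ∧ 4 * γ ^ 3 - 4 ≠ 0 ∧
  ((taylor (SS 0 γ) W₀).coeff 2).coeff 3 = 0 ∧ ((taylor (SS 0 γ) Q₀).coeff 2).coeff 0 = 1

def T_CTR : Prop := ∀ (c q₀ q₁ q₂ e₀ e₁ e₂ : ℕ → ℂ) (κ : ℂ), κ ≠ 0 → (∀ n, c n ≠ 0) →
  Tendsto e₀ atTop (𝓝 0) → Tendsto e₁ atTop (𝓝 κ) → Tendsto e₂ atTop (𝓝 0) →
  Tendsto q₂ atTop (𝓝 1) → Tendsto c atTop (𝓝 0) →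
  (∀ n, q₀ n ^ 2 = c n ^ 9 * e₀ n) → (∀ n, 2 * q₀ n * q₁ n = c n ^ 6 * e₁ n) →
  (∀ n, q₁ n ^ 2 + 2 * q₀ n * q₂ n = c n ^ 3 * e₂ n) → False

def T_SQR : Prop := ∀ (c : ℂ) (Q R : ℂ[X][X]) (S : ℂ[X]),
  let q : ℕ → ℂ := fun j => ((taylor S Q).coeff j).eval (-c)
  ((taylor S (ww c Q R)).coeff 0).eval (-c) = q 0 ^ 2 ∧
  ((taylor S (ww c Q R)).coeff 1).eval (-c) = 2 * q 0 * q 1 ∧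
  ((taylor S (ww c Q R)).coeff 2).eval (-c) = q 1 ^ 2 + 2 * q 0 * q 2

def T_FIN : Prop := ∀ (c β γ : ℕ → ℂ) (Q R : ℕ → ℂ[X][X]) (γ' : ℂ), Tendsto c atTop (𝓝 0) →
  (∀ n, c n ≠ 0) → Conv Q Q₀ → Conv R R₀ → Tendsto β atTop (𝓝 0) →
  Tendsto γ atTop (𝓝 γ') → γ' ^ 4 = 4 * γ' →
  (∀ n, DivAt (ww (c n) (Q n) (R n)) (SS (β n) (γ n))) → False

def T_END : Prop := ∃ ε : ℝ, 0 < ε ∧ ∀ (c : ℂ) (Q R : ℂ[X][X]), ‖c‖ ≤ ε → c ≠ 0 →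
  Close ε Q Q₀ → Close ε R R₀ → ∀ β γ : ℂ, ¬ DivAt (ww c Q R) (SS β γ)

def T_NJ : Prop := ¬ DeformsTo f₀ (J30 1)

end Pool.Agent.H15.LU
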